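import Pool.Agent.Q211.Ulam.Upper

open MeasureTheory ProbabilityTheory Filter
open scoped Topology

namespace Pool.Agent.Q211.Ulam

variable {Ω : Type*} [mΩ : MeasurableSpace Ω] {μ : Measure Ω} {U : ℕ → Ω → ℕ} {X : ℕ → Ω → ℝ}

lemma tendsto_inv_sqrt : Tendsto (fun n : ℕ => 1 / √(n : ℝ)) atTop (𝓝 0) := by
  have h : Tendsto (fun n : ℕ => √(n : ℝ)) atTop atTop :=
    Real.tendsto_sqrt_atTop.comp tendsto_natCast_atTop_atTop
  simp only [one_div]
  exact h.inv_tendsto_atTop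

lemma sqrt_diff_eq (n : ℕ) (hn : 1 ≤ n) :
    √((n + 1 : ℕ) : ℝ) - √(n : ℝ) = 1 / (√((n + 1 : ℕ) : ℝ) + √(n : ℝ)) := by
  have h0 : (0 : ℝ) < √(n : ℝ) := Real.sqrt_pos.2 (by exact_mod_cast hn)
  have h1 : √((n + 1 : ℕ) : ℝ) ^ 2 = n + 1 := by
    rw [Real.sq_sqrt (by positivity)]; push_cast; ring
  have h2 : √(n : ℝ) ^ 2 = n := Real.sq_sqrt (by positivity)
  have h3 : (0 : ℝ) ≤ √((n + 1 : ℕ) : ℝ) := Real.sqrt_nonneg _
  rw [eq_div_iff (by linarith)]
  nlinarith

lemma sqrt_diff_le (n : ℕ) (hn : 1 ≤ n) :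
    √((n + 1 : ℕ) : ℝ) - √(n : ℝ) ≤ 1 / √(n : ℝ) / 2 := by
  have h0 : (0 : ℝ) < √(n : ℝ) := Real.sqrt_pos.2 (by exact_mod_cast hn)
  have h1 : √(n : ℝ) ≤ √((n + 1 : ℕ) : ℝ) := Real.sqrt_le_sqrt (by push_cast; linarith)
  rw [sqrt_diff_eq n hn, div_div]
  exact one_div_le_one_div_of_le (by linarith) (by linarith)

/-- The growth factor is eventually below the exponential one. -/
lemma growth_le {Λ γ K : ℝ} (hΛ : Λ < γ) (hγ : 0 < γ) : ∀ᶠ n : ℕ in atTop,
    1 + Λ / √(n : ℝ) + K / n ≤ Real.exp (2 * γ * (√((n + 1 : ℕ) : ℝ) - √(n : ℝ))) := by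
  have h1 : Tendsto (fun n : ℕ => Λ + K * (1 / √(n : ℝ))) atTop (𝓝 Λ) := by
    simpa using (tendsto_inv_sqrt.const_mul K).const_add Λ
  have h2 : Tendsto (fun n : ℕ => γ * (1 - (1 / √(n : ℝ)) * (1 / √(n : ℝ)))) atTop (𝓝 γ) := by
    have := ((tendsto_inv_sqrt.mul tendsto_inv_sqrt).const_sub 1).const_mul γ
    simpa using this
  filter_upwards [h1.eventually_lt h2 hΛ, eventually_ge_atTop 1] with n hn hn1
  have hn0 : (1 : ℝ) ≤ n := by exact_mod_cast hn1
  set x := √(n : ℝ) with hx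
  have hx0 : 0 < x := Real.sqrt_pos.2 (by linarith)
  have hx2 : x ^ 2 = n := Real.sq_sqrt (by linarith)
  set y := √((n + 1 : ℕ) : ℝ) with hy
  have hy0 : 0 < y := Real.sqrt_pos.2 (by push_cast; linarith)
  have hy2 : y ^ 2 = n + 1 := by
    rw [hy, Real.sq_sqrt (by positivity)]; push_cast; ring
  have hxy : x ≤ y := Real.sqrt_le_sqrt (by push_cast; linarith)
  have h3 : 2 * γ * (y - x) + 1 ≤ Real.exp (2 * γ * (y - x)) := Real.add_one_le_exp _
  have h4 : γ / y ≤ 2 * γ * (y - x) := by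
    have e := sqrt_diff_eq n hn1
    rw [← hx, ← hy] at e
    rw [e, div_le_iff₀ hy0]
    have : 1 / (2 * y) ≤ 1 / (y + x) := one_div_le_one_div_of_le (by linarith) (by linarith)
    calc γ = 2 * γ * (1 / (2 * y)) * y := by field_simp
      _ ≤ 2 * γ * (1 / (y + x)) * y := by
        refine mul_le_mul_of_nonneg_right ?_ hy0.le
        exact mul_le_mul_of_nonneg_left this (by linarith)
  have h5 : γ * (1 - 1 / x * (1 / x)) / x ≤ γ / y := by
    -- (1 - 1/x^2) / x ≤ 1 / y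
    have h6 : (1 - 1 / x * (1 / x)) * y ≤ x := by
      have h7 : (x ^ 2 - 1) * y ≤ x ^ 3 := by
        have h8 : y ≤ x + 1 / (2 * x) := by
          have : y ^ 2 ≤ (x + 1 / (2 * x)) ^ 2 := by
            have : (x + 1 / (2 * x)) ^ 2 = x ^ 2 + 1 + (1 / (2 * x)) ^ 2 := by field_simp; ring
            rw [this, hy2, hx2]
            have := sq_nonneg (1 / (2 * x))
            linarith
          exact le_of_sq_le_sq' this (by positivity)
        have h9 : 1 ≤ x ^ 2 := by rw [hx2]; exact hn0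
        calc (x ^ 2 - 1) * y ≤ (x ^ 2 - 1) * (x + 1 / (2 * x)) :=
              mul_le_mul_of_nonneg_left h8 (by linarith)
          _ = x ^ 3 - x / 2 - 1 / (2 * x) := by field_simp; ring
          _ ≤ x ^ 3 := by
            have : 0 ≤ x / 2 + 1 / (2 * x) := by positivity
            linarith
      have : (1 - 1 / x * (1 / x)) * y = (x ^ 2 - 1) * y / x ^ 2 := by field_simp
      rw [this, div_le_iff₀ (by positivity)]
      nlinarith
    rw [div_le_div_iff₀ hx0 hy0]
    calc γ * (1 - 1 / x * (1 / x)) * y = γ * ((1 - 1 / x * (1 / x)) * y) := by ring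
      _ ≤ γ * x := mul_le_mul_of_nonneg_left h6 hγ.le
  have h6 : (Λ + K * (1 / x)) / x ≤ γ * (1 - 1 / x * (1 / x)) / x :=
    div_le_div_of_nonneg_right hn.le hx0.le
  have h7 : (Λ + K * (1 / x)) / x = Λ / x + K / n := by
    rw [← hx2]; field_simp
  linarith
where
  le_of_sq_le_sq' {a b : ℝ} (h : a ^ 2 ≤ b ^ 2) (hb : 0 ≤ b) : a ≤ b := abs_le_of_sq_le_sq' h hb |>.2

/-- Asymptotic upper bound for the `m`-th moment. -/
theorem upper_bound [IsProbabilityMeasure μ] (hX : IsUlamKac μ U X) {m : ℕ} {w : ℕ → ℝ} {Λ : ℝ}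
    (hw : ∀ k, 0 < w k) (hΛ0 : 0 < Λ)
    (hΛ : ∀ k ≤ m, (k : ℝ) * w (k - 1) + ((2 : ℝ) ^ (m - k) - 1) * w (k + 1) ≤ Λ * w k)
    {γ : ℝ} (hγ : Λ < γ) :
    ∃ A : ℝ, 0 < A ∧ ∀ᶠ n : ℕ in atTop, ∫ ω, X n ω ^ m ∂μ ≤ A * Real.exp (2 * γ * √(n : ℝ)) := by
  obtain ⟨K, hK0, hK⟩ := Bd_succ hX hw hΛ
  obtain ⟨N, hN⟩ := eventually_atTop.1 (growth_le (K := K) hγ (hΛ0.trans hγ))
  -- initial bound at `max N 1`
  set N1 := max N 1 with hN1
  have hinit : ∃ C, 0 < C ∧ Bd μ X m w N1 C := by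
    -- deterministic bounds
    obtain ⟨c, hc⟩ := (hX.nice_X N1 N1 le_rfl).bdd
    have hcb : ∀ b, ∃ c, ∀ ω, |T X b N1 ω| ≤ c := fun b => (hX.nice_T b N1).bdd
    choose cT hcT using hcb
    -- a uniform bound for all relevant states
    let M : ℝ := 1 + |c| + ∑ b ∈ Finset.range (m + 1), |cT b|
    have hM1 : 1 ≤ M := by
      have : 0 ≤ ∑ b ∈ Finset.range (m + 1), |cT b| := Finset.sum_nonneg fun _ _ => abs_nonneg _
      have := abs_nonneg c
      simp only [M]; linarith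
    have hMc : ∀ ω, X N1 ω ≤ M := fun ω => by
      have h1 := (le_abs_self _).trans (hc ω)
      have h2 := le_abs_self c
      have : 0 ≤ ∑ b ∈ Finset.range (m + 1), |cT b| := Finset.sum_nonneg fun _ _ => abs_nonneg _
      simp only [M]; linarith
    have hMT : ∀ b ≤ m, ∀ ω, T X b N1 ω ≤ M := fun b hb ω => by
      have h1 := (le_abs_self _).trans (hcT b ω)
      have h2 := le_abs_self (cT b)
      have h3 : |cT b| ≤ ∑ b ∈ Finset.range (m + 1), |cT b| :=
        Finset.single_le_sum (f := fun b => |cT b|) (fun _ _ => abs_nonneg _)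
          (Finset.mem_range.2 (by omega))
      have := abs_nonneg c
      simp only [M]; linarith
    have hprod : ∀ B : List ℕ, (∀ b ∈ B, b ≤ m) → ∀ ω, prodT X B N1 ω ≤ M ^ B.length := by
      intro B
      induction B with
      | nil => intro _ ω; simp [prodT]
      | cons b B ih =>
        intro hB ω
        have h1 : prodT X (b :: B) N1 ω = T X b N1 ω * prodT X B N1 ω := by simp [prodT]
        rw [h1, List.length_cons, pow_succ, mul_comm]
        exact mul_le_mul (ih (fun c hc => hB c (by simp [hc])) ω) (hMT b (hB b (by simp)) ω)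
          (hX.T_pos b N1 ω).le (by positivity)
    let D : ℝ := ∑ k ∈ Finset.range (m + 1), 1 / w k
    have hD : ∀ k ≤ m, 1 / w k ≤ D := fun k hk =>
      Finset.single_le_sum (f := fun k => 1 / w k) (fun k _ => by have := hw k; positivity)
        (Finset.mem_range.2 (by omega))
    have hD0 : 0 < D := lt_of_lt_of_le (by have := hw 0; positivity) (hD 0 (by omega))
    refine ⟨M ^ m * M ^ m * D, by positivity, ?_⟩
    intro a B hBB hs
    have hlen := length_le_sum B hBB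
    have hbm : ∀ b ∈ B, b ≤ m := fun b hb => by
      have := List.single_le_sum (by intro x _; exact Nat.zero_le x) b hb
      omega
    have h1 : ∀ ω, X N1 ω ^ a * prodT X B N1 ω ≤ M ^ m * M ^ m := by
      intro ω
      have h2 : X N1 ω ^ a ≤ M ^ m :=
        (pow_le_pow_left₀ (hX.pos ω N1).le (hMc ω) a).trans
          (pow_le_pow_right₀ hM1 (by omega))
      have h3 : prodT X B N1 ω ≤ M ^ m :=
        (hprod B hbm ω).trans (pow_le_pow_right₀ hM1 (by omega))
      exact mul_le_mul h2 h3 (hX.prodT_pos B N1 ω).le (by positivity)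
    have h2 : Phi μ X a B N1 ≤ M ^ m * M ^ m := by
      unfold Phi
      have hi : Integrable (fun ω => X N1 ω ^ a * prodT X B N1 ω) μ :=
        (((hX.nice_X N1 N1 le_rfl).pow a).mul (hX.nice_prodT B N1)).integrable hX
      have h3 := integral_mono hi (integrable_const (M ^ m * M ^ m)) h1
      simpa using h3
    have hwk := hw B.length
    have h3 : (1 : ℝ) ≤ √(N1 : ℝ) ^ B.length := by
      refine one_le_pow₀ ?_
      rw [Real.one_le_sqrt]
      have : 1 ≤ N1 := le_max_right _ _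
      exact_mod_cast this
    have h4 : 1 ≤ D * w B.length := by
      have := mul_le_mul_of_nonneg_right (hD B.length (by omega)) hwk.le
      rwa [one_div, inv_mul_cancel₀ hwk.ne'] at this
    calc Phi μ X a B N1 ≤ M ^ m * M ^ m := h2
      _ = M ^ m * M ^ m * (1 * 1) := by ring
      _ ≤ M ^ m * M ^ m * ((D * w B.length) * √(N1 : ℝ) ^ B.length) := by
        refine mul_le_mul_of_nonneg_left ?_ (by positivity)
        exact mul_le_mul h4 h3 zero_le_one (by positivity)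
      _ = _ := by ring
  obtain ⟨C, hC0, hC⟩ := hinit
  have hstep : ∀ n, N1 ≤ n → Bd μ X m w n
      (C * Real.exp (2 * γ * (√(n : ℝ) - √(N1 : ℝ)))) := by
    intro n hn
    induction n, hn using Nat.le_induction with
    | base => simpa using hC
    | succ n hn ih =>
      have hn1 : 1 ≤ n := le_trans (le_max_right _ _) hn
      have h1 := hK n hn1 _ (by positivity) ih
      intro a B hBB hs
      refine (h1 a B hBB hs).trans ?_
      have h2 := hN n (le_trans (le_max_left _ _) hn)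
      have hwk := hw B.length
      refine mul_le_mul_of_nonneg_right ?_ (by positivity)
      calc C * Real.exp (2 * γ * (√(n : ℝ) - √(N1 : ℝ))) * (1 + Λ / √(n : ℝ) + K / n)
          ≤ C * Real.exp (2 * γ * (√(n : ℝ) - √(N1 : ℝ))) *
            Real.exp (2 * γ * (√((n + 1 : ℕ) : ℝ) - √(n : ℝ))) :=
            mul_le_mul_of_nonneg_left h2 (by positivity)
        _ = _ := by
            rw [mul_assoc, ← Real.exp_add]
            congr 2
            ring
  refine ⟨C * w 0 * Real.exp (-(2 * γ * √(N1 : ℝ))), by have := hw 0; positivity, ?_⟩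
  filter_upwards [eventually_ge_atTop N1] with n hn
  have h := hstep n hn m [] (by simp) (by simp)
  have hP : Phi μ X m [] n = ∫ ω, X n ω ^ m ∂μ := by unfold Phi; simp [prodT]
  rw [hP] at h
  refine h.trans (le_of_eq ?_)
  simp only [List.length_nil, pow_zero, mul_one]
  have : Real.exp (2 * γ * (√(n : ℝ) - √(N1 : ℝ))) =
      Real.exp (-(2 * γ * √(N1 : ℝ))) * Real.exp (2 * γ * √(n : ℝ)) := by
    rw [← Real.exp_add]; congr 1; ring
  rw [this]; ring

/-! ### Lower bound -/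

lemma p_succ [IsProbabilityMeasure μ] (hX : IsUlamKac μ U X) (m n : ℕ) :
    ∫ ω, X (n + 1) ω ^ m ∂μ = ∫ ω, X n ω ^ m ∂μ +
      (∑ i ∈ Finset.range m, (m.choose i : ℝ) * ∫ ω, X n ω ^ i * T X (m - i) n ω ∂μ) /
        ((n : ℝ) + 1) := by
  have hXn : Nice U n (X n) := hX.nice_X n n le_rfl
  have h1 : ∀ ω, X (n + 1) ω ^ m = X n ω ^ m +
      ∑ i ∈ Finset.range m, (m.choose i : ℝ) * (X n ω ^ i * X (U n ω) ω ^ (m - i)) := by
    intro ω
    rw [hX.succ, add_pow, Finset.sum_range_succ]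
    simp only [Nat.sub_self, pow_zero, mul_one, Nat.choose_self, Nat.cast_one]
    rw [add_comm]
    congr 1
    refine Finset.sum_congr rfl fun i _ => ?_
    ring
  simp only [h1]
  have hXU : Nice U (n + 1) (fun ω => X (U n ω) ω) := by
    have : (fun ω => X (U n ω) ω) = fun ω => X (n + 1) ω + (-1) * X n ω := by
      funext ω; rw [hX.succ]; ring
    rw [this]
    exact (hX.nice_X (n + 1) (n + 1) le_rfl).add
      ((Nice.const _ _).mul (hXn.mono (Nat.le_succ n)))
  have hint : ∀ i ∈ Finset.range m, Integrable (fun ω => (m.choose i : ℝ) *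
        (X n ω ^ i * X (U n ω) ω ^ (m - i))) μ := fun i _ =>
    ((Nice.const (n + 1) _).mul (((hXn.pow i).mono (Nat.le_succ n)).mul (hXU.pow _))).integrable hX
  rw [integral_add ((hXn.pow m).integrable hX) (integrable_finsetSum _ hint),
    integral_finsetSum _ hint, Finset.sum_div]
  congr 1
  refine Finset.sum_congr rfl fun i _ => ?_
  rw [integral_const_mul, hX.integral_eval (hXn.pow i)]
  ring

lemma q_succ [IsProbabilityMeasure μ] (hX : IsUlamKac μ U X) (m n : ℕ) :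
    (∑ i ∈ Finset.range m, (m.choose i : ℝ) * ∫ ω, X n ω ^ i * T X (m - i) n ω ∂μ) +
      ((2 : ℝ) ^ m - 1) * ∫ ω, X n ω ^ m ∂μ ≤
    ∑ i ∈ Finset.range m, (m.choose i : ℝ) * ∫ ω, X (n + 1) ω ^ i * T X (m - i) (n + 1) ω ∂μ := by
  have h5 : (∑ i ∈ Finset.range m, (m.choose i : ℝ)) = (2 : ℝ) ^ m - 1 := by
    have := Nat.sum_range_choose m
    rw [Finset.sum_range_succ] at this
    have h : ((∑ i ∈ Finset.range m, m.choose i : ℕ) : ℝ) + 1 = (2 : ℝ) ^ m := by
      have h' : (∑ i ∈ Finset.range m, m.choose i) + 1 = 2 ^ m := by simpa using this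
      exact_mod_cast h'
    push_cast at h
    linarith
  rw [← h5, Finset.sum_mul, ← Finset.sum_add_distrib]
  refine Finset.sum_le_sum fun i hi => ?_
  rw [← mul_add]
  refine mul_le_mul_of_nonneg_left ?_ (Nat.cast_nonneg _)
  have hi' := Finset.mem_range.1 hi
  have hXn : Nice U n (X n) := hX.nice_X n n le_rfl
  have hXn1 : Nice U (n + 1) (X (n + 1)) := hX.nice_X (n + 1) (n + 1) le_rfl
  rw [← integral_add (((hXn.pow i).mul (hX.nice_T _ n)).integrable hX) ((hXn.pow m).integrable hX)]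
  refine integral_mono ((((hXn.pow i).mul (hX.nice_T _ n)).add (hXn.pow m)).integrable hX)
    (((hXn1.pow i).mul (hX.nice_T _ (n + 1))).integrable hX) fun ω => ?_
  have hle : X n ω ≤ X (n + 1) ω := by
    rw [hX.succ]; have := hX.pos ω (U n ω); linarith
  have h0 := (hX.pos ω n).le
  have hT := (hX.T_pos (m - i) n ω).le
  show X n ω ^ i * T X (m - i) n ω + X n ω ^ m ≤ X (n + 1) ω ^ i * T X (m - i) (n + 1) ω
  rw [T_succ, mul_add]
  refine add_le_add (mul_le_mul_of_nonneg_right (pow_le_pow_left₀ h0 hle i) hT) ?_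
  rw [← pow_add, Nat.add_sub_cancel' hi'.le]
  exact pow_le_pow_left₀ h0 hle m

/-- Asymptotic lower bound for the `m`-th moment. -/
theorem lower_bound [IsProbabilityMeasure μ] (hX : IsUlamKac μ U X) {m : ℕ} (hm : 1 ≤ m)
    {γ : ℝ} (hγ0 : 0 ≤ γ) (hγ : γ < √((2 : ℝ) ^ m - 1)) :
    ∃ A : ℝ, 0 < A ∧ ∀ᶠ n : ℕ in atTop, A * Real.exp (2 * γ * √(n : ℝ)) ≤ ∫ ω, X n ω ^ m ∂μ := by
  set s := √((2 : ℝ) ^ m - 1) with hs
  have hD : 0 ≤ (2 : ℝ) ^ m - 1 := by
    have := one_le_pow₀ (M₀ := ℝ) (a := 2) one_le_two (n := m)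
    linarith
  have hs2 : s ^ 2 = (2 : ℝ) ^ m - 1 := Real.sq_sqrt hD
  have hs0 : 0 < s := lt_of_le_of_lt hγ0 hγ
  -- the two elementary inequalities
  have l1 : Tendsto (fun n : ℕ => (γ + γ ^ 2 * (1 / √(n : ℝ))) * (1 + (1 / √(n : ℝ)) ^ 2)) atTop
      (𝓝 γ) := by
    have := ((tendsto_inv_sqrt.const_mul (γ ^ 2)).const_add γ).mul
      ((tendsto_inv_sqrt.pow 2).const_add 1)
    simpa using this
  have l2 : Tendsto (fun n : ℕ => γ + γ ^ 2 * (1 / √(n : ℝ)) + (1 / √(n : ℝ)) / 2 +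
      γ * (1 / √(n : ℝ)) ^ 2 / 2 + γ ^ 2 * (1 / √(n : ℝ)) ^ 3 / 2) atTop (𝓝 γ) := by
    have a := tendsto_inv_sqrt
    have := ((((a.const_mul (γ ^ 2)).const_add γ).add (a.div_const 2)).add
      (((a.pow 2).const_mul γ).div_const 2)).add (((a.pow 3).const_mul (γ ^ 2)).div_const 2)
    simpa using this
  have l3 : Tendsto (fun n : ℕ => γ * (1 / √(n : ℝ))) atTop (𝓝 0) := by
    simpa using tendsto_inv_sqrt.const_mul γ
  obtain ⟨N, hN⟩ := eventually_atTop.1 ((l1.eventually_lt_const hγ).and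
    ((l2.eventually_lt_const hγ).and ((l3.eventually_lt_const one_pos).and (eventually_ge_atTop 1))))
  have hkey : ∀ n ≥ N, Real.exp (2 * γ * (√((n + 1 : ℕ) : ℝ) - √(n : ℝ))) ≤
        1 + s * √(n : ℝ) / ((n : ℝ) + 1) ∧
      √((n + 1 : ℕ) : ℝ) * Real.exp (2 * γ * (√((n + 1 : ℕ) : ℝ) - √(n : ℝ))) ≤ √(n : ℝ) + s := by
    intro n hn
    obtain ⟨a1, a2, a3, hn1⟩ := hN n hn
    have hn0 : (1 : ℝ) ≤ n := by exact_mod_cast hn1
    set x := √(n : ℝ) with hx
    have hx0 : 0 < x := Real.sqrt_pos.2 (by linarith)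
    have hx2 : x ^ 2 = n := Real.sq_sqrt (by linarith)
    set t := 1 / x with ht
    have ht0 : 0 < t := by positivity
    have htx : t * x = 1 := by rw [ht]; field_simp
    have hdiff := sqrt_diff_le n hn1
    rw [← hx, ← ht] at hdiff
    have hE : Real.exp (2 * γ * (√((n + 1 : ℕ) : ℝ) - x)) ≤ 1 + γ * t + (γ * t) ^ 2 := by
      have h1 : 2 * γ * (√((n + 1 : ℕ) : ℝ) - x) ≤ γ * t := by nlinarith
      have h2 := Real.exp_le_exp.2 h1
      have h3 : |γ * t| ≤ 1 := by rw [abs_of_nonneg (by positivity)]; exact a3.le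
      have h4 := Real.abs_exp_sub_one_sub_id_le h3
      have h5 := (abs_le.1 h4).2
      linarith
    constructor
    · refine hE.trans ?_
      have h6 : s * x / ((n : ℝ) + 1) = s * t / (1 + t ^ 2) := by
        rw [← hx2, ht]; field_simp
      rw [h6]
      have h7 : γ * t + (γ * t) ^ 2 ≤ s * t / (1 + t ^ 2) := by
        rw [le_div_iff₀ (by positivity)]
        have : (γ * t + (γ * t) ^ 2) * (1 + t ^ 2) = t * ((γ + γ ^ 2 * t) * (1 + t ^ 2)) := by ring
        rw [this]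
        nlinarith
      linarith
    · have h8 : √((n + 1 : ℕ) : ℝ) ≤ x + t / 2 := by linarith
      calc √((n + 1 : ℕ) : ℝ) * Real.exp (2 * γ * (√((n + 1 : ℕ) : ℝ) - x))
          ≤ (x + t / 2) * (1 + γ * t + (γ * t) ^ 2) := by
            refine mul_le_mul h8 hE (Real.exp_pos _).le (by positivity)
        _ = x + γ * (t * x) + γ ^ 2 * t * (t * x) + t / 2 + γ * t ^ 2 / 2 + γ ^ 2 * t ^ 3 / 2 := by
            ring
        _ ≤ x + s := by rw [htx]; linarith
  let p : ℕ → ℝ := fun n => ∫ ω, X n ω ^ m ∂μ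
  let q : ℕ → ℝ := fun n =>
    ∑ i ∈ Finset.range m, (m.choose i : ℝ) * ∫ ω, X n ω ^ i * T X (m - i) n ω ∂μ
  have hp : ∀ n, 1 ≤ p n := by
    intro n
    have h := integral_mono (integrable_const (μ := μ) (1 : ℝ))
      (((hX.nice_X n n le_rfl).pow m).integrable hX)
      (fun ω => one_le_pow₀ (hX.one_le ω n n le_rfl))
    simpa using h
  have hq : ∀ n, 1 ≤ q n := by
    intro n
    have h1 : ∀ i ∈ Finset.range m, (1 : ℝ) ≤ (m.choose i : ℝ) *
        ∫ ω, X n ω ^ i * T X (m - i) n ω ∂μ := by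
      intro i hi
      have hc : (1 : ℝ) ≤ (m.choose i : ℝ) := by
        exact_mod_cast Nat.choose_pos (Finset.mem_range.1 hi).le
      have hT : ∀ ω, 1 ≤ X n ω ^ i * T X (m - i) n ω := by
        intro ω
        have a : 1 ≤ X n ω ^ i := one_le_pow₀ (hX.one_le ω n n le_rfl)
        have b : 1 ≤ T X (m - i) n ω := by
          have h2 : X n ω ^ (m - i) ≤ T X (m - i) n ω :=
            Finset.single_le_sum (f := fun j => X j ω ^ (m - i))
              (fun j _ => (pow_pos (hX.pos ω j) _).le) (Finset.mem_range.2 (Nat.lt_succ_self n))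
          exact (one_le_pow₀ (hX.one_le ω n n le_rfl)).trans h2
        nlinarith
      have hI := integral_mono (integrable_const (μ := μ) (1 : ℝ))
        ((((hX.nice_X n n le_rfl).pow i).mul (hX.nice_T (m - i) n)).integrable hX) hT
      have hI' : (1 : ℝ) ≤ ∫ ω, X n ω ^ i * T X (m - i) n ω ∂μ := by simpa using hI
      nlinarith
    have h0 : (1 : ℝ) ≤ (m.choose 0 : ℝ) * ∫ ω, X n ω ^ 0 * T X (m - 0) n ω ∂μ :=
      h1 0 (Finset.mem_range.2 hm)
    refine h0.trans ?_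
    exact Finset.single_le_sum (f := fun i => (m.choose i : ℝ) *
        ∫ ω, X n ω ^ i * T X (m - i) n ω ∂μ)
      (fun i hi => zero_le_one.trans (h1 i hi)) (Finset.mem_range.2 hm)
  obtain ⟨δ, hδ0, hδ1, hδ2⟩ : ∃ δ : ℝ, 0 < δ ∧ δ * Real.exp (2 * γ * √(N : ℝ)) ≤ 1 ∧
      δ * (s * √(N : ℝ) * Real.exp (2 * γ * √(N : ℝ))) ≤ 1 := by
    set e := Real.exp (2 * γ * √(N : ℝ)) with he
    have he0 : 0 < e := Real.exp_pos _
    have h1 : 0 ≤ s * √(N : ℝ) * e := by positivity
    refine ⟨1 / (e + s * √(N : ℝ) * e), by positivity, ?_, ?_⟩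
    · rw [div_mul_eq_mul_div, one_mul, div_le_one (by positivity)]; linarith
    · rw [div_mul_eq_mul_div, one_mul, div_le_one (by positivity)]; linarith
  have hmain : ∀ n, N ≤ n → δ * Real.exp (2 * γ * √(n : ℝ)) ≤ p n ∧
      δ * (s * √(n : ℝ) * Real.exp (2 * γ * √(n : ℝ))) ≤ q n := by
    intro n hn
    induction n, hn using Nat.le_induction with
    | base => exact ⟨hδ1.trans (hp N), hδ2.trans (hq N)⟩
    | succ n hn ih =>
      obtain ⟨ih1, ih2⟩ := ih
      obtain ⟨k1, k2⟩ := hkey n hn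
      have hexp : Real.exp (2 * γ * √((n + 1 : ℕ) : ℝ)) = Real.exp (2 * γ * √(n : ℝ)) *
          Real.exp (2 * γ * (√((n + 1 : ℕ) : ℝ) - √(n : ℝ))) := by
        rw [← Real.exp_add]; congr 1; ring
      set e := Real.exp (2 * γ * √(n : ℝ)) with he
      have he0 : 0 < e := Real.exp_pos _
      constructor
      · have h1 : p (n + 1) = p n + q n / ((n : ℝ) + 1) := p_succ hX m n
        rw [h1, hexp]
        have h2 : δ * (s * √(n : ℝ) * e) / ((n : ℝ) + 1) ≤ q n / ((n : ℝ) + 1) :=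
          div_le_div_of_nonneg_right ih2 (by positivity)
        have h3 : δ * (e * Real.exp (2 * γ * (√((n + 1 : ℕ) : ℝ) - √(n : ℝ)))) ≤
            δ * (e * (1 + s * √(n : ℝ) / ((n : ℝ) + 1))) :=
          mul_le_mul_of_nonneg_left (mul_le_mul_of_nonneg_left k1 he0.le) hδ0.le
        refine h3.trans ?_
        calc δ * (e * (1 + s * √(n : ℝ) / ((n : ℝ) + 1))) =
              δ * e + δ * (s * √(n : ℝ) * e) / ((n : ℝ) + 1) := by ring
          _ ≤ _ := add_le_add ih1 h2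
      · have h1 : q n + ((2 : ℝ) ^ m - 1) * p n ≤ q (n + 1) := q_succ hX m n
        refine le_trans ?_ h1
        rw [hexp, ← hs2]
        have h3 : δ * (s * (e * (√((n + 1 : ℕ) : ℝ) *
            Real.exp (2 * γ * (√((n + 1 : ℕ) : ℝ) - √(n : ℝ)))))) ≤ δ * (s * (e * (√(n : ℝ) + s))) :=
          mul_le_mul_of_nonneg_left (mul_le_mul_of_nonneg_left
            (mul_le_mul_of_nonneg_left k2 he0.le) hs0.le) hδ0.le
        have h4 : s ^ 2 * (δ * e) ≤ s ^ 2 * p n := mul_le_mul_of_nonneg_left ih1 (sq_nonneg s)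
        calc δ * (s * √((n + 1 : ℕ) : ℝ) *
              (e * Real.exp (2 * γ * (√((n + 1 : ℕ) : ℝ) - √(n : ℝ)))))
            = δ * (s * (e * (√((n + 1 : ℕ) : ℝ) *
              Real.exp (2 * γ * (√((n + 1 : ℕ) : ℝ) - √(n : ℝ)))))) := by ring
          _ ≤ δ * (s * (e * (√(n : ℝ) + s))) := h3
          _ = δ * (s * √(n : ℝ) * e) + s ^ 2 * (δ * e) := by ring
          _ ≤ _ := add_le_add ih2 h4
  refine ⟨δ, hδ0, ?_⟩
  filter_upwards [eventually_ge_atTop N] with n hn
  exact (hmain n hn).1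

end Pool.Agent.Q211.Ulam
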