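import Pool.Agent.Q211.Ulam.Asym

open MeasureTheory ProbabilityTheory Filter
open scoped Topology

namespace Pool.Agent.Q211.Ulam

variable {Ω : Type*} [mΩ : MeasurableSpace Ω] {μ : Measure Ω} {U : ℕ → Ω → ℕ} {X : ℕ → Ω → ℝ}

/-- Half of the upper constants. -/
noncomputable def Lam (m : ℕ) : ℝ :=
  if m = 1 then 1 else if m = 2 then 3 else if m = 3 then 9 / 2 else
    81 / 50 * √((2 : ℝ) ^ m)

/-- The ratios of the weights. -/
noncomputable def rr (j : ℕ) : ℝ :=
  if j = 1 then 81 / 50 else if j = 2 then 2 else if j = 3 then 12 / 5 else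
    if j = 4 then 29 / 10 else 7 / 10 * j

lemma rr_pos (j : ℕ) : 0 < rr (j + 1) := by
  unfold rr
  split_ifs
  · norm_num
  · norm_num
  · norm_num
  · norm_num
  · positivity

lemma pow_bound (k : ℕ) (hk : 5 ≤ k) : (k + 1) * 32 ≤ 6 * 2 ^ k := by
  induction k, hk using Nat.le_induction with
  | base => norm_num
  | succ k hk ih =>
    calc (k + 1 + 1) * 32 ≤ 2 * ((k + 1) * 32) := by linarith
      _ ≤ 2 * (6 * 2 ^ k) := Nat.mul_le_mul_left 2 ih
      _ = 6 * 2 ^ (k + 1) := by rw [pow_succ]; ring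

lemma rr_bound (k : ℕ) (hk : 1 ≤ k) : (k : ℝ) / rr k + rr (k + 1) / 2 ^ k ≤ 81 / 50 := by
  by_cases h5 : 5 ≤ k
  · have e1 : rr k = 7 / 10 * k := by
      unfold rr
      rw [if_neg (by omega), if_neg (by omega), if_neg (by omega), if_neg (by omega)]
    have e2 : rr (k + 1) = 7 / 10 * ((k + 1 : ℕ) : ℝ) := by
      unfold rr
      rw [if_neg (by omega), if_neg (by omega), if_neg (by omega), if_neg (by omega)]
    have hk0 : (0 : ℝ) < k := by exact_mod_cast hk
    have h1 : (k : ℝ) / (7 / 10 * k) = 10 / 7 := by field_simp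
    have h2 : (((k + 1 : ℕ) : ℝ)) / 2 ^ k ≤ 6 / 32 := by
      rw [div_le_div_iff₀ (by positivity) (by norm_num)]
      exact_mod_cast pow_bound k h5
    rw [e1, e2, h1, mul_div_assoc]
    nlinarith
  · have hk4 : k ≤ 4 := by omega
    interval_cases k <;> unfold rr <;> norm_num

/-- Weights for the upper bound. -/
lemma exists_weights (m : ℕ) (hm : 1 ≤ m) :
    ∃ w : ℕ → ℝ, (∀ k, 0 < w k) ∧
      ∀ k ≤ m, (k : ℝ) * w (k - 1) + ((2 : ℝ) ^ (m - k) - 1) * w (k + 1) ≤ Lam m * w k := by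
  by_cases h1 : m = 1
  · subst h1
    refine ⟨fun _ => 1, fun _ => one_pos, fun k hk => ?_⟩
    interval_cases k <;> simp [Lam] <;> norm_num
  by_cases h2 : m = 2
  · subst h2
    refine ⟨fun _ => 1, fun _ => one_pos, fun k hk => ?_⟩
    interval_cases k <;> simp [Lam] <;> norm_num
  by_cases h3 : m = 3
  · subst h3
    refine ⟨fun k => if k = 0 then 1 else if k = 1 then 9 / 14 else 1 / 2, fun k => ?_,
      fun k hk => ?_⟩
    · dsimp only
      split_ifs <;> norm_num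
    · interval_cases k <;> simp [Lam] <;> norm_num
  have hL : Lam m = 81 / 50 * √((2 : ℝ) ^ m) := by
    unfold Lam
    rw [if_neg h1, if_neg h2, if_neg h3]
  set s := √((2 : ℝ) ^ m) with hs
  have hs0 : 0 < s := Real.sqrt_pos.2 (by positivity)
  have hs2 : s * s = (2 : ℝ) ^ m := Real.mul_self_sqrt (by positivity)
  refine ⟨fun k => ∏ j ∈ Finset.range k, (rr (j + 1) / s), fun k => ?_, fun k hk => ?_⟩
  · exact Finset.prod_pos fun j _ => div_pos (rr_pos j) hs0
  · rw [hL]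
    rcases Nat.eq_zero_or_pos k with hk0 | hk0
    · subst hk0
      have hr1 : rr 1 = 81 / 50 := by unfold rr; rw [if_pos rfl]
      simp only [Nat.cast_zero, zero_mul, zero_add, Finset.prod_range_one, Finset.range_zero,
        Finset.prod_empty, Nat.sub_zero, hr1, mul_one]
      rw [← hs2]
      have : (s * s - 1) * (81 / 50 / s) = 81 / 50 * s - 81 / 50 / s := by
        field_simp
      rw [this]
      have : 0 < 81 / 50 / s := by positivity
      linarith
    · obtain ⟨k, rfl⟩ : ∃ l, k = l + 1 := ⟨k - 1, by omega⟩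
      dsimp only
      set W := ∏ j ∈ Finset.range (k + 1), (rr (j + 1) / s) with hW
      have hW0 : 0 < W := Finset.prod_pos fun j _ => div_pos (rr_pos j) hs0
      have hw1 : ∏ j ∈ Finset.range (k + 1 + 1), (rr (j + 1) / s) = W * (rr (k + 1 + 1) / s) := by
        rw [Finset.prod_range_succ]
      have hr := rr_pos k
      have hw0 : ∏ j ∈ Finset.range (k + 1 - 1), (rr (j + 1) / s) = W * (s / rr (k + 1)) := by
        rw [hW, Finset.prod_range_succ, Nat.add_sub_cancel]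
        field_simp
      rw [hw1, hw0]
      have hpow : (2 : ℝ) ^ (m - (k + 1)) = s * s / 2 ^ (k + 1) := by
        rw [hs2, eq_div_iff (by positivity), ← pow_add]
        congr 1
        omega
      rw [hpow]
      have hb := rr_bound (k + 1) (by omega)
      have hr' := rr_pos (k + 1)
      have e : ((k + 1 : ℕ) : ℝ) * (W * (s / rr (k + 1))) +
          (s * s / 2 ^ (k + 1) - 1) * (W * (rr (k + 1 + 1) / s)) =
          W * s * (((k + 1 : ℕ) : ℝ) / rr (k + 1) + rr (k + 1 + 1) / 2 ^ (k + 1)) -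
            W * (rr (k + 1 + 1) / s) := by
        field_simp
        ring
      rw [e]
      have h1 : 0 < W * (rr (k + 1 + 1) / s) := by positivity
      have h2 : W * s * (((k + 1 : ℕ) : ℝ) / rr (k + 1) + rr (k + 1 + 1) / 2 ^ (k + 1)) ≤
          W * s * (81 / 50) := mul_le_mul_of_nonneg_left hb (by positivity)
      nlinarith

lemma Lam_pos (m : ℕ) : 0 < Lam m := by
  unfold Lam
  split_ifs
  · norm_num
  · norm_num
  · norm_num
  · have : 0 < √((2 : ℝ) ^ m) := Real.sqrt_pos.2 (by positivity)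
    positivity

lemma log_le_of_pow {x : ℝ} {a : ℕ} (hx : 0 < x) (h : x ^ 5 ≤ 2.7182818283 ^ a) :
    Real.log x ≤ a / 5 := by
  have h1 : x ^ 5 ≤ Real.exp 1 ^ a :=
    h.trans (pow_le_pow_left₀ (by norm_num) Real.exp_one_gt_d9.le a)
  have h2 : Real.log (x ^ 5) ≤ Real.log (Real.exp 1 ^ a) := Real.log_le_log (by positivity) h1
  rw [Real.log_pow, Real.log_pow, Real.log_exp] at h2
  push_cast at h2
  linarith

lemma log_sqrt_two_pow (m : ℕ) : Real.log (√((2 : ℝ) ^ m)) = m / 2 * Real.log 2 := by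
  rw [Real.log_sqrt (by positivity), Real.log_pow]
  ring

/-- The upper numerical bound. -/
lemma log_Lam_le (m : ℕ) (hm : 1 ≤ m) : Real.log (2 * Lam m) ≤ 0.4 * m + 1 := by
  have l2 := Real.log_two_lt_d9
  unfold Lam
  by_cases h1 : m = 1
  · subst h1
    rw [if_pos rfl]
    norm_num at l2 ⊢
    linarith
  by_cases h2 : m = 2
  · subst h2
    rw [if_neg h1, if_pos rfl]
    have := log_le_of_pow (x := 2 * 3) (a := 9) (by norm_num) (by norm_num)
    norm_num at this ⊢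
    linarith
  by_cases h3 : m = 3
  · subst h3
    rw [if_neg h1, if_neg h2, if_pos rfl]
    have := log_le_of_pow (x := 2 * (9 / 2)) (a := 11) (by norm_num) (by norm_num)
    norm_num at this ⊢
    linarith
  rw [if_neg h1, if_neg h2, if_neg h3]
  have hm4 : (4 : ℝ) ≤ m := by exact_mod_cast (by omega : 4 ≤ m)
  have hs0 : 0 < √((2 : ℝ) ^ m) := Real.sqrt_pos.2 (by positivity)
  rw [show 2 * (81 / 50 * √((2 : ℝ) ^ m)) = 81 / 25 * √((2 : ℝ) ^ m) by ring,
    Real.log_mul (by norm_num) hs0.ne', log_sqrt_two_pow]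
  have := log_le_of_pow (x := 81 / 25) (a := 6) (by norm_num) (by norm_num)
  have h5 : (m : ℝ) / 2 * Real.log 2 ≤ m / 2 * 0.6931471808 :=
    mul_le_mul_of_nonneg_left l2.le (by positivity)
  norm_num at this h5 ⊢
  linarith

/-- The lower numerical bound. -/
lemma log_lo_ge (m : ℕ) (hm : 1 ≤ m) : 0.3 * (m : ℝ) ≤ Real.log (2 * √((2 : ℝ) ^ m - 1)) := by
  have l2 := Real.log_two_gt_d9
  have h1 : (2 : ℝ) ^ m ≤ 4 * ((2 : ℝ) ^ m - 1) := by
    have : (2 : ℝ) ^ 1 ≤ 2 ^ m := pow_le_pow_right₀ one_le_two hm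
    linarith
  have h2 : √((2 : ℝ) ^ m) ≤ 2 * √((2 : ℝ) ^ m - 1) := by
    rw [show 2 * √((2 : ℝ) ^ m - 1) = √(4 * ((2 : ℝ) ^ m - 1)) by
      rw [Real.sqrt_mul (by norm_num), show (4 : ℝ) = 2 ^ 2 by norm_num,
        Real.sqrt_sq (by norm_num)]]
    exact Real.sqrt_le_sqrt h1
  have hs0 : 0 < √((2 : ℝ) ^ m) := Real.sqrt_pos.2 (by positivity)
  have h3 := Real.log_le_log hs0 h2
  rw [log_sqrt_two_pow] at h3
  have h5 : (m : ℝ) / 2 * 0.6931471803 ≤ m / 2 * Real.log 2 :=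
    mul_le_mul_of_nonneg_left l2.le (by positivity)
  have hm0 : (0 : ℝ) ≤ m := Nat.cast_nonneg m
  norm_num at h5 ⊢
  linarith

/-- A constant is eventually negligible. -/
lemma eventually_const_le (A : ℝ) {ε : ℝ} (hε : 0 < ε) : ∀ᶠ n : ℕ in atTop, A ≤ ε * √(n : ℝ) := by
  have h : Tendsto (fun n : ℕ => ε * √(n : ℝ)) atTop atTop :=
    (Real.tendsto_sqrt_atTop.comp tendsto_natCast_atTop_atTop).const_mul_atTop hε
  exact h.eventually_ge_atTop A

theorem log_upper [IsProbabilityMeasure μ] (hX : IsUlamKac μ U X) {m : ℕ} (hm : 1 ≤ m)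
    {ε : ℝ} (hε : 0 < ε) :
    ∀ᶠ n : ℕ in atTop, Real.log (∫ ω, X n ω ^ m ∂μ) ≤ (2 * Lam m + ε) * √(n : ℝ) := by
  obtain ⟨w, hw, hwL⟩ := exists_weights m hm
  obtain ⟨A, hA, hA'⟩ := upper_bound hX hw (Lam_pos m) hwL (γ := Lam m + ε / 4) (by linarith)
  have hs1 : (0 : ℝ) < √((2 : ℝ) ^ m - 1) := by
    have : (2 : ℝ) ^ 1 ≤ 2 ^ m := pow_le_pow_right₀ one_le_two hm
    exact Real.sqrt_pos.2 (by linarith)
  obtain ⟨B, hB, hB'⟩ := lower_bound hX hm le_rfl hs1
  filter_upwards [hA', hB', eventually_const_le (Real.log A) (half_pos hε)] with n h1 h2 h3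
  have hpos : 0 < ∫ ω, X n ω ^ m ∂μ := lt_of_lt_of_le (by positivity) h2
  have h4 := Real.log_le_log hpos h1
  rw [Real.log_mul hA.ne' (Real.exp_pos _).ne', Real.log_exp] at h4
  nlinarith

theorem log_lower [IsProbabilityMeasure μ] (hX : IsUlamKac μ U X) {m : ℕ} (hm : 1 ≤ m)
    {ε : ℝ} (hε : 0 < ε) :
    ∀ᶠ n : ℕ in atTop, (2 * √((2 : ℝ) ^ m - 1) - ε) * √(n : ℝ) ≤
      Real.log (∫ ω, X n ω ^ m ∂μ) := by
  have hs1 : (0 : ℝ) < √((2 : ℝ) ^ m - 1) := by
    have : (2 : ℝ) ^ 1 ≤ 2 ^ m := pow_le_pow_right₀ one_le_two hm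
    exact Real.sqrt_pos.2 (by linarith)
  obtain ⟨B, hB, hB'⟩ := lower_bound hX hm (γ := max (√((2 : ℝ) ^ m - 1) - ε / 4) 0)
    (le_max_right _ _) (max_lt (by linarith) hs1)
  filter_upwards [hB', eventually_const_le (-Real.log B) (half_pos hε)] with n h2 h3
  have h4 := Real.log_le_log (by positivity) h2
  rw [Real.log_mul hB.ne' (Real.exp_pos _).ne', Real.log_exp] at h4
  have h5 := le_max_left (√((2 : ℝ) ^ m - 1) - ε / 4) 0
  have h6 : (√((2 : ℝ) ^ m - 1) - ε / 4) * √(n : ℝ) ≤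
      max (√((2 : ℝ) ^ m - 1) - ε / 4) 0 * √(n : ℝ) :=
    mul_le_mul_of_nonneg_right h5 (Real.sqrt_nonneg _)
  nlinarith

end Pool.Agent.Q211.Ulam
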