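import Mathlib

open MeasureTheory ProbabilityTheory Filter
open scoped Topology

namespace Pool.Agent.Q211.Ulam

variable {Ω : Type*} [mΩ : MeasurableSpace Ω]

/-- `X` is the Ulam-Kac adder driven by the independent uniform choices `U`. -/
structure IsUlamKac (μ : Measure Ω) (U : ℕ → Ω → ℕ) (X : ℕ → Ω → ℝ) : Prop where
  meas : ∀ n, Measurable (U n)
  indep : iIndepFun U μ
  le : ∀ n ω, U n ω ≤ n
  unif : ∀ n, ∀ j ≤ n, μ.real {ω | U n ω = j} = 1 / ((n : ℝ) + 1)
  zero : ∀ ω, X 0 ω = 1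
  succ : ∀ n ω, X (n + 1) ω = X n ω + X (U n ω) ω

/-- The σ-algebra of the first `n` choices. -/
@[reducible] def past (U : ℕ → Ω → ℕ) (n : ℕ) : MeasurableSpace Ω :=
  ⨆ i ∈ Set.Iio n, MeasurableSpace.comap (U i) ⊤

variable {μ : Measure Ω} {U : ℕ → Ω → ℕ} {X : ℕ → Ω → ℝ}

lemma past_mono {n k : ℕ} (h : n ≤ k) : past U n ≤ past U k :=
  biSup_mono fun _ hi => lt_of_lt_of_le hi h

lemma IsUlamKac.past_le (hX : IsUlamKac μ U X) (n : ℕ) : past U n ≤ mΩ := by
  refine iSup₂_le fun i _ => ?_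
  exact (hX.meas i).comap_le

lemma measurable_past {n i : ℕ} (h : i < n) : Measurable[past U n] (U i) := by
  refine Measurable.mono (comap_measurable (U i)) ?_ le_rfl
  exact le_iSup₂_of_le i h le_rfl

/-- Bounded functions of the first `n` choices. -/
structure Nice (U : ℕ → Ω → ℕ) (n : ℕ) (f : Ω → ℝ) : Prop where
  meas : Measurable[past U n] f
  bdd : ∃ C, ∀ ω, |f ω| ≤ C

lemma Nice.mono {n k : ℕ} {f : Ω → ℝ} (h : Nice U n f) (hk : n ≤ k) : Nice U k f :=
  ⟨h.meas.mono (past_mono hk) le_rfl, h.bdd⟩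

lemma Nice.mul {n : ℕ} {f g : Ω → ℝ} (hf : Nice U n f) (hg : Nice U n g) :
    Nice U n (fun ω => f ω * g ω) := by
  obtain ⟨C, hC⟩ := hf.bdd
  obtain ⟨D, hD⟩ := hg.bdd
  refine ⟨hf.meas.mul hg.meas, C * D, fun ω => ?_⟩
  rw [abs_mul]
  exact mul_le_mul (hC ω) (hD ω) (abs_nonneg _) ((abs_nonneg _).trans (hC ω))

lemma Nice.add {n : ℕ} {f g : Ω → ℝ} (hf : Nice U n f) (hg : Nice U n g) :
    Nice U n (fun ω => f ω + g ω) := by
  obtain ⟨C, hC⟩ := hf.bdd
  obtain ⟨D, hD⟩ := hg.bdd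
  exact ⟨hf.meas.add hg.meas, C + D, fun ω => (abs_add_le _ _).trans (add_le_add (hC ω) (hD ω))⟩

lemma Nice.const (n : ℕ) (c : ℝ) : Nice U n (fun _ => c) :=
  ⟨measurable_const, |c|, fun _ => le_rfl⟩

lemma Nice.pow {n : ℕ} {f : Ω → ℝ} (hf : Nice U n f) (k : ℕ) : Nice U n (fun ω => f ω ^ k) := by
  induction k with
  | zero => simpa using Nice.const n 1
  | succ k ih =>
    simp only [pow_succ]
    exact ih.mul hf

lemma Nice.sum {n : ℕ} {ι : Type*} (s : Finset ι) {f : ι → Ω → ℝ} (hf : ∀ i ∈ s, Nice U n (f i)) :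
    Nice U n (fun ω => ∑ i ∈ s, f i ω) := by
  classical
  induction s using Finset.induction_on with
  | empty => simpa using Nice.const n 0
  | insert a s ha ih =>
    simp only [Finset.sum_insert ha]
    exact (hf a (Finset.mem_insert_self _ _)).add
      (ih fun i hi => hf i (Finset.mem_insert_of_mem hi))

lemma Nice.ind {n i : ℕ} (h : i < n) (j : ℕ) :
    Nice U n (fun ω => if U i ω = j then (1 : ℝ) else 0) := by
  refine ⟨?_, 1, fun ω => by split_ifs <;> simp⟩
  have : Measurable (fun k : ℕ => if k = j then (1 : ℝ) else 0) := measurable_from_nat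
  exact this.comp (measurable_past h)

lemma Nice.integrable [IsProbabilityMeasure μ] (hX : IsUlamKac μ U X) {n : ℕ} {f : Ω → ℝ}
    (hf : Nice U n f) : Integrable f μ := by
  obtain ⟨C, hC⟩ := hf.bdd
  refine Integrable.of_bound ((hf.meas.mono (hX.past_le n) le_rfl).aestronglyMeasurable) C
    (Eventually.of_forall fun ω => ?_)
  rw [Real.norm_eq_abs]
  exact hC ω

/-- `X (U n)` as a sum over the possible values. -/
lemma IsUlamKac.eval_eq (hX : IsUlamKac μ U X) (n : ℕ) (c : ℕ) (ω : Ω) :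
    X (U n ω) ω ^ c = ∑ j ∈ Finset.range (n + 1), (if U n ω = j then (1 : ℝ) else 0) * X j ω ^ c := by
  rw [Finset.sum_eq_single (U n ω)]
  · simp
  · intro j _ hj
    rw [if_neg (fun h => hj h.symm), zero_mul]
  · intro h
    exact absurd (Finset.mem_range.2 (Nat.lt_succ_of_le (hX.le n ω))) h

lemma IsUlamKac.nice_X (hX : IsUlamKac μ U X) : ∀ n, ∀ j ≤ n, Nice U n (X j) := by
  intro n
  induction n with
  | zero =>
    intro j hj
    have : X j = fun _ => (1 : ℝ) := by
      funext ω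
      rw [Nat.le_zero.1 hj, hX.zero]
    rw [this]
    exact Nice.const 0 1
  | succ n ih =>
    intro j hj
    rcases Nat.lt_or_ge j (n + 1) with h | h
    · exact (ih j (by omega)).mono (Nat.le_succ n)
    · have hj' : j = n + 1 := by omega
      subst hj'
      have : X (n + 1) = fun ω => X n ω +
          ∑ j ∈ Finset.range (n + 1), (if U n ω = j then (1 : ℝ) else 0) * X j ω ^ 1 := by
        funext ω
        rw [hX.succ, ← hX.eval_eq n 1 ω, pow_one]
      rw [this]
      refine ((ih n le_rfl).mono (Nat.le_succ n)).add (Nice.sum _ fun i hi => ?_)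
      exact (Nice.ind (Nat.lt_succ_self n) i).mul
        (((ih i (by have := Finset.mem_range.1 hi; omega)).mono (Nat.le_succ n)).pow 1)

lemma IsUlamKac.one_le (hX : IsUlamKac μ U X) (ω : Ω) : ∀ n, ∀ j ≤ n, 1 ≤ X j ω := by
  intro n
  induction n with
  | zero =>
    intro j hj
    rw [Nat.le_zero.1 hj, hX.zero]
  | succ n ih =>
    intro j hj
    rcases Nat.lt_or_ge j (n + 1) with h | h
    · exact ih j (by omega)
    · have hj' : j = n + 1 := by omega
      subst hj'
      rw [hX.succ]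
      have h1 := ih n le_rfl
      have h2 := ih (U n ω) (hX.le n ω)
      linarith

lemma IsUlamKac.pos (hX : IsUlamKac μ U X) (ω : Ω) (n : ℕ) : 0 < X n ω :=
  lt_of_lt_of_le one_pos (hX.one_le ω n n le_rfl)

/-- The sum of the `b`-th powers up to time `n`. -/
noncomputable def T (X : ℕ → Ω → ℝ) (b n : ℕ) (ω : Ω) : ℝ := ∑ j ∈ Finset.range (n + 1), X j ω ^ b

/-- The product of the `T b n`, `b ∈ B`. -/
noncomputable def prodT (X : ℕ → Ω → ℝ) (B : List ℕ) (n : ℕ) (ω : Ω) : ℝ :=
  (B.map (fun b => T X b n ω)).prod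

lemma T_succ (X : ℕ → Ω → ℝ) (b n : ℕ) (ω : Ω) : T X b (n + 1) ω = T X b n ω + X (n + 1) ω ^ b := by
  unfold T
  rw [Finset.sum_range_succ]

lemma IsUlamKac.nice_T (hX : IsUlamKac μ U X) (b n : ℕ) : Nice U n (T X b n) :=
  Nice.sum _ fun j hj => (hX.nice_X n j (by have := Finset.mem_range.1 hj; omega)).pow b

lemma IsUlamKac.nice_prodT (hX : IsUlamKac μ U X) (B : List ℕ) (n : ℕ) :
    Nice U n (prodT X B n) := by
  induction B with
  | nil => exact Nice.const n 1
  | cons b B ih =>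
    have : prodT X (b :: B) n = fun ω => T X b n ω * prodT X B n ω := by
      funext ω; simp [prodT]
    rw [this]
    exact (hX.nice_T b n).mul ih

lemma IsUlamKac.T_pos (hX : IsUlamKac μ U X) (b n : ℕ) (ω : Ω) : 0 < T X b n ω :=
  Finset.sum_pos (fun j _ => pow_pos (hX.pos ω j) b) ⟨0, by simp⟩

lemma IsUlamKac.prodT_pos (hX : IsUlamKac μ U X) (B : List ℕ) (n : ℕ) (ω : Ω) :
    0 < prodT X B n ω := by
  induction B with
  | nil => simp [prodT]
  | cons b B ih =>
    have : prodT X (b :: B) n ω = T X b n ω * prodT X B n ω := by simp [prodT]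
    rw [this]
    exact mul_pos (hX.T_pos b n ω) ih

/-- Conditioning on the last choice. -/
lemma IsUlamKac.integral_choice [IsProbabilityMeasure μ] (hX : IsUlamKac μ U X) {n : ℕ}
    {g : Ω → ℝ} (hg : Nice U n g) {j : ℕ} (hj : j ≤ n) :
    ∫ ω, g ω * (if U n ω = j then (1 : ℝ) else 0) ∂μ = (∫ ω, g ω ∂μ) / ((n : ℝ) + 1) := by
  have h1 : Indep (past U n) (MeasurableSpace.comap (U n) ⊤) μ := by
    have h := indep_iSup_of_disjoint (m := fun i => MeasurableSpace.comap (U i) ⊤)
      (fun i => (hX.meas i).comap_le) hX.indep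
      (S := Set.Iio n) (T := {n}) (by simp)
    have h2 : (⨆ i ∈ ({n} : Set ℕ), MeasurableSpace.comap (U i) ⊤) = MeasurableSpace.comap (U n) ⊤ := by
      simp
    rw [h2] at h
    exact h
  have h2 : IndepFun g (U n) μ := indep_of_indep_of_le_left h1 hg.meas.comap_le
  have h3 : IndepFun g (fun ω => if U n ω = j then (1 : ℝ) else 0) μ :=
    h2.comp (φ := id) (ψ := fun k : ℕ => if k = j then (1 : ℝ) else 0) measurable_id
      measurable_from_nat
  have h4 : Nice U (n + 1) (fun ω => if U n ω = j then (1 : ℝ) else 0) :=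
    Nice.ind (Nat.lt_succ_self n) j
  have h5 : ∫ ω, g ω * (if U n ω = j then (1 : ℝ) else 0) ∂μ =
      (∫ ω, g ω ∂μ) * ∫ ω, (if U n ω = j then (1 : ℝ) else 0) ∂μ :=
    h3.integral_fun_mul_eq_mul_integral (hg.integrable hX).aestronglyMeasurable
      (h4.integrable hX).aestronglyMeasurable
  rw [h5]
  have h6 : ∫ ω, (if U n ω = j then (1 : ℝ) else 0) ∂μ = 1 / ((n : ℝ) + 1) := by
    rw [← hX.unif n j hj]
    have : (fun ω => if U n ω = j then (1 : ℝ) else 0) =
        Set.indicator {ω | U n ω = j} (fun _ => (1 : ℝ)) := by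
      funext ω
      by_cases h : U n ω = j
      · rw [if_pos h, Set.indicator_of_mem (show ω ∈ {ω | U n ω = j} from h)]
      · rw [if_neg h, Set.indicator_of_notMem (show ω ∉ {ω | U n ω = j} from h)]
    have hs : MeasurableSet {ω | U n ω = j} := (hX.meas n) (measurableSet_singleton j)
    rw [this, integral_indicator_const _ hs]
    simp
  rw [h6]
  ring

lemma IsUlamKac.integral_eval [IsProbabilityMeasure μ] (hX : IsUlamKac μ U X) {n : ℕ}
    {g : Ω → ℝ} (hg : Nice U n g) (c : ℕ) :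
    ∫ ω, g ω * X (U n ω) ω ^ c ∂μ = (∫ ω, g ω * T X c n ω ∂μ) / ((n : ℝ) + 1) := by
  have h1 : ∀ ω, g ω * X (U n ω) ω ^ c = ∑ j ∈ Finset.range (n + 1),
      (g ω * X j ω ^ c) * (if U n ω = j then (1 : ℝ) else 0) := by
    intro ω
    rw [hX.eval_eq n c ω, Finset.mul_sum]
    refine Finset.sum_congr rfl fun j _ => ?_
    ring
  simp only [h1]
  have hn : ∀ j ∈ Finset.range (n + 1), Nice U n (fun ω => g ω * X j ω ^ c) := fun j hj =>
    hg.mul ((hX.nice_X n j (by have := Finset.mem_range.1 hj; omega)).pow c)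
  rw [integral_finsetSum _ (fun j hj => (((hn j hj).mono (Nat.le_succ n)).mul
    (Nice.ind (Nat.lt_succ_self n) j)).integrable hX)]
  have h2 : ∀ ω, g ω * T X c n ω = ∑ j ∈ Finset.range (n + 1), g ω * X j ω ^ c := by
    intro ω; unfold T; rw [Finset.mul_sum]
  simp only [h2]
  rw [integral_finsetSum _ (fun j hj => (hn j hj).integrable hX), Finset.sum_div]
  refine Finset.sum_congr rfl fun j hj => ?_
  exact hX.integral_choice (hn j hj) (by have := Finset.mem_range.1 hj; omega)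

end Pool.Agent.Q211.Ulam
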