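import Pool.Agent.Q211.Ulam.Moments

open MeasureTheory ProbabilityTheory Filter
open scoped Topology

namespace Pool.Agent.Q211.Ulam

variable {Ω : Type*} [mΩ : MeasurableSpace Ω] {μ : Measure Ω} {U : ℕ → Ω → ℕ} {X : ℕ → Ω → ℝ}

/-- The mixed moment `E[X_n^a ∏ T_b(n)]`. -/
noncomputable def Phi (μ : Measure Ω) (X : ℕ → Ω → ℝ) (a : ℕ) (B : List ℕ) (n : ℕ) : ℝ :=
  ∫ ω, X n ω ^ a * prodT X B n ω ∂μ

/-- The bound on all mixed moments of total degree `m`. -/
def Bd (μ : Measure Ω) (X : ℕ → Ω → ℝ) (m : ℕ) (w : ℕ → ℝ) (n : ℕ) (C : ℝ) : Prop :=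
  ∀ a B, (∀ b ∈ B, 1 ≤ b) → a + B.sum = m →
    Phi μ X a B n ≤ C * (w B.length * √(n : ℝ) ^ B.length)

/-- The bound for one step without the sums. -/
noncomputable def Hf (m : ℕ) (w : ℕ → ℝ) (n : ℕ) (C : ℝ) (r : ℕ) : ℝ :=
  C * (w r * √(n : ℝ) ^ r + ((2 : ℝ) ^ (m - r) - 1) * (w (r + 1) * √(n : ℝ) ^ (r + 1)) / ((n : ℝ) + 1))

/-- Expansion of the product over subsets. -/
noncomputable def Kf (H : ℕ → ℝ) : ℕ → ℕ → ℝ
  | 0, δ => H δ
  | β + 1, δ => Kf H β (δ + 1) + Kf H β δ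

lemma length_le_sum : ∀ (D : List ℕ), (∀ b ∈ D, 1 ≤ b) → D.length ≤ D.sum
  | [], _ => by simp
  | b :: D, h => by
    have h1 := h b (by simp)
    have h2 := length_le_sum D (fun b hb => h b (by simp [hb]))
    simp only [List.length_cons, List.sum_cons]
    omega

lemma one_step [IsProbabilityMeasure μ] (hX : IsUlamKac μ U X) {m : ℕ} {w : ℕ → ℝ} {n : ℕ} {C : ℝ}
    (hC : 0 ≤ C) (hw : ∀ k, 0 ≤ w k) (hB : Bd μ X m w n C) (A : ℕ) (D : List ℕ)
    (hD : ∀ b ∈ D, 1 ≤ b) (hAD : A + D.sum = m) :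
    ∫ ω, X (n + 1) ω ^ A * prodT X D n ω ∂μ ≤ Hf m w n C D.length := by
  have hXn : Nice U n (X n) := hX.nice_X n n le_rfl
  have hpT : Nice U n (prodT X D n) := hX.nice_prodT D n
  have h1 : ∀ ω, X (n + 1) ω ^ A * prodT X D n ω = X n ω ^ A * prodT X D n ω +
      ∑ i ∈ Finset.range A, (A.choose i : ℝ) *
        ((X n ω ^ i * prodT X D n ω) * X (U n ω) ω ^ (A - i)) := by
    intro ω
    rw [hX.succ, add_pow, Finset.sum_range_succ]
    simp only [Nat.sub_self, pow_zero, mul_one, Nat.choose_self, Nat.cast_one]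
    rw [add_mul, add_comm, Finset.sum_mul]
    congr 1
    refine Finset.sum_congr rfl fun i _ => ?_
    ring
  simp only [h1]
  have hnice : ∀ i, Nice U n (fun ω => X n ω ^ i * prodT X D n ω) := fun i => (hXn.pow i).mul hpT
  have hXU : Nice U (n + 1) (fun ω => X (U n ω) ω) := by
    have : (fun ω => X (U n ω) ω) = fun ω => X (n + 1) ω + (-1) * X n ω := by
      funext ω; rw [hX.succ]; ring
    rw [this]
    exact (hX.nice_X (n + 1) (n + 1) le_rfl).add
      ((Nice.const _ _).mul (hXn.mono (Nat.le_succ n)))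
  have hint : ∀ i ∈ Finset.range A, Integrable (fun ω => (A.choose i : ℝ) *
        ((X n ω ^ i * prodT X D n ω) * X (U n ω) ω ^ (A - i))) μ := fun i _ =>
    ((Nice.const (n + 1) _).mul (((hnice i).mono (Nat.le_succ n)).mul (hXU.pow _))).integrable hX
  rw [integral_add ((hnice A).integrable hX) (integrable_finsetSum _ hint),
    integral_finsetSum _ hint]
  have h2 : ∫ ω, X n ω ^ A * prodT X D n ω ∂μ ≤ C * (w D.length * √(n : ℝ) ^ D.length) :=
    hB A D hD hAD
  have h3 : ∀ i ∈ Finset.range A, ∫ ω, (A.choose i : ℝ) *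
        ((X n ω ^ i * prodT X D n ω) * X (U n ω) ω ^ (A - i)) ∂μ ≤
      (A.choose i : ℝ) * (C * (w (D.length + 1) * √(n : ℝ) ^ (D.length + 1)) / ((n : ℝ) + 1)) := by
    intro i hi
    have hi' := Finset.mem_range.1 hi
    rw [integral_const_mul, hX.integral_eval (hnice i)]
    refine mul_le_mul_of_nonneg_left ?_ (Nat.cast_nonneg _)
    refine div_le_div_of_nonneg_right ?_ (by positivity)
    have h4 := hB i ((A - i) :: D) (by
      intro b hb
      rcases List.mem_cons.1 hb with rfl | hb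
      · omega
      · exact hD b hb) (by simp only [List.sum_cons]; omega)
    simp only [List.length_cons] at h4
    refine le_trans (le_of_eq ?_) h4
    unfold Phi
    refine integral_congr_ae (Eventually.of_forall fun ω => ?_)
    simp only [prodT, List.map_cons, List.prod_cons]
    ring
  have h5 : (∑ i ∈ Finset.range A, (A.choose i : ℝ)) = (2 : ℝ) ^ A - 1 := by
    have := Nat.sum_range_choose A
    rw [Finset.sum_range_succ] at this
    have h : ((∑ i ∈ Finset.range A, A.choose i : ℕ) : ℝ) + 1 = (2 : ℝ) ^ A := by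
      have h' : (∑ i ∈ Finset.range A, A.choose i) + 1 = 2 ^ A := by simpa using this
      exact_mod_cast h'
    push_cast at h
    linarith
  have h6 := Finset.sum_le_sum h3
  rw [← Finset.sum_mul, h5] at h6
  have h7 : (2 : ℝ) ^ A ≤ (2 : ℝ) ^ (m - D.length) := by
    refine pow_le_pow_right₀ one_le_two ?_
    have := length_le_sum D hD
    omega
  have h8 : ((2 : ℝ) ^ A - 1) * (C * (w (D.length + 1) * √(n : ℝ) ^ (D.length + 1)) / ((n : ℝ) + 1)) ≤
      ((2 : ℝ) ^ (m - D.length) - 1) *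
        (C * (w (D.length + 1) * √(n : ℝ) ^ (D.length + 1)) / ((n : ℝ) + 1)) := by
    refine mul_le_mul_of_nonneg_right (by linarith) ?_
    have := hw (D.length + 1)
    positivity
  unfold Hf
  refine (add_le_add h2 (h6.trans h8)).trans (le_of_eq ?_)
  ring

lemma expand [IsProbabilityMeasure μ] (hX : IsUlamKac μ U X) {m : ℕ} {w : ℕ → ℝ} {n : ℕ} {C : ℝ}
    (hC : 0 ≤ C) (hw : ∀ k, 0 ≤ w k) (hB : Bd μ X m w n C) :
    ∀ (B : List ℕ) (A : ℕ) (D : List ℕ), (∀ b ∈ B, 1 ≤ b) → (∀ b ∈ D, 1 ≤ b) →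
      A + B.sum + D.sum = m →
      ∫ ω, X (n + 1) ω ^ A * prodT X B (n + 1) ω * prodT X D n ω ∂μ ≤
        Kf (Hf m w n C) B.length D.length
  | [], A, D, _, hD, hs => by
    have h := one_step hX hC hw hB A D hD (by simpa using hs)
    simpa [prodT, Kf] using h
  | b :: B, A, D, hBB, hD, hs => by
    simp only [List.sum_cons] at hs
    have hb := hBB b (by simp)
    have h1 := expand hX hC hw hB B A (b :: D) (fun c hc => hBB c (by simp [hc]))
      (fun c hc => by
        rcases List.mem_cons.1 hc with rfl | hc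
        · exact hb
        · exact hD c hc) (by simp only [List.sum_cons]; omega)
    have h2 := expand hX hC hw hB B (A + b) D (fun c hc => hBB c (by simp [hc])) hD (by omega)
    have hXn1 : Nice U (n + 1) (X (n + 1)) := hX.nice_X (n + 1) (n + 1) le_rfl
    have hB1 : Nice U (n + 1) (prodT X B (n + 1)) := hX.nice_prodT B (n + 1)
    have hDn : Nice U (n + 1) (prodT X D n) := (hX.nice_prodT D n).mono (Nat.le_succ n)
    have hbD : Nice U (n + 1) (prodT X (b :: D) n) := (hX.nice_prodT (b :: D) n).mono (Nat.le_succ n)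
    have h3 : ∀ ω, X (n + 1) ω ^ A * prodT X (b :: B) (n + 1) ω * prodT X D n ω =
        X (n + 1) ω ^ A * prodT X B (n + 1) ω * prodT X (b :: D) n ω +
        X (n + 1) ω ^ (A + b) * prodT X B (n + 1) ω * prodT X D n ω := by
      intro ω
      simp only [prodT, List.map_cons, List.prod_cons]
      rw [T_succ]
      ring
    simp only [h3, List.length_cons, Kf]
    rw [integral_add ((((hXn1.pow A).mul hB1).mul hbD).integrable hX)
      ((((hXn1.pow (A + b)).mul hB1).mul hDn).integrable hX)]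
    exact add_le_add h1 h2

/-- Numerical bound for the expansion. -/
lemma Kf_le (H : ℕ → ℝ) {x n c : ℝ} (hx : 1 ≤ x) (hxn : x ^ 2 = n) (hc : 0 ≤ c) (M : ℕ)
    (hH : ∀ r ≤ M, H r ≤ c * x ^ r) :
    ∀ β δ, β + δ ≤ M → Kf H β δ ≤ H (δ + β) + β * H (δ + β - 1) + 3 ^ β * (c * x ^ (δ + β) / n) := by
  have hx0 : 0 < x := by linarith
  have hn : 0 < n := by rw [← hxn]; positivity
  intro β
  induction β with
  | zero =>
    intro δ _
    simp only [Kf, Nat.cast_zero, zero_mul, add_zero, pow_zero, one_mul]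
    have : 0 ≤ c * x ^ δ / n := by positivity
    linarith
  | succ β ih =>
    intro δ hM
    simp only [Kf]
    have h1 := ih (δ + 1) (by omega)
    have h2 := ih δ (by omega)
    have e1 : δ + 1 + β = δ + (β + 1) := by ring
    have e2 : δ + 1 + β - 1 = δ + β := by omega
    have e3 : δ + (β + 1) - 1 = δ + β := by omega
    rw [e2, e1] at h1
    rw [e3]
    have hpow : c * x ^ (δ + β) / n ≤ c * x ^ (δ + (β + 1)) / n := by
      refine div_le_div_of_nonneg_right ?_ hn.le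
      refine mul_le_mul_of_nonneg_left ?_ hc
      exact pow_le_pow_right₀ hx (by omega)
    have hlow : (β : ℝ) * H (δ + β - 1) ≤ β * (c * x ^ (δ + (β + 1)) / n) := by
      rcases Nat.eq_zero_or_pos β with h0 | h0
      · subst h0; simp
      · refine mul_le_mul_of_nonneg_left ?_ (Nat.cast_nonneg _)
        refine (hH (δ + β - 1) (by omega)).trans (le_of_eq ?_)
        have e4 : δ + (β + 1) = (δ + β - 1) + 2 := by omega
        rw [e4, pow_add, hxn]
        field_simp
    have h3 : (β : ℝ) ≤ 3 ^ β := by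
      have : β < 3 ^ β := Nat.lt_pow_self (by norm_num)
      exact_mod_cast this.le
    have hq : 0 ≤ c * x ^ (δ + (β + 1)) / n := by positivity
    have h4 : (β : ℝ) * (c * x ^ (δ + (β + 1)) / n) ≤ 3 ^ β * (c * x ^ (δ + (β + 1)) / n) :=
      mul_le_mul_of_nonneg_right h3 hq
    have h5 : (3 : ℝ) ^ β * (c * x ^ (δ + β) / n) ≤ 3 ^ β * (c * x ^ (δ + (β + 1)) / n) :=
      mul_le_mul_of_nonneg_left hpow (by positivity)
    push_cast
    rw [pow_succ]
    nlinarith

/-- One step of the induction for the mixed moments. -/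
theorem Bd_succ [IsProbabilityMeasure μ] (hX : IsUlamKac μ U X) {m : ℕ} {w : ℕ → ℝ} {Λ : ℝ}
    (hw : ∀ k, 0 < w k)
    (hΛ : ∀ k ≤ m, (k : ℝ) * w (k - 1) + ((2 : ℝ) ^ (m - k) - 1) * w (k + 1) ≤ Λ * w k) :
    ∃ K : ℝ, 0 ≤ K ∧ ∀ n : ℕ, 1 ≤ n → ∀ C : ℝ, 0 ≤ C → Bd μ X m w n C →
      Bd μ X m w (n + 1) (C * (1 + Λ / √(n : ℝ) + K / n)) := by
  let h : ℝ := ∑ r ∈ Finset.range (m + 1), (w r + 2 ^ m * w (r + 1))
  have hterm : ∀ r, 0 ≤ w r + 2 ^ m * w (r + 1) := fun r => by
    have := hw r; have := hw (r + 1); positivity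
  have hh0 : 0 ≤ h := Finset.sum_nonneg fun r _ => hterm r
  have hh : ∀ r ≤ m, w r + 2 ^ m * w (r + 1) ≤ h := fun r hr =>
    Finset.single_le_sum (f := fun r => w r + 2 ^ m * w (r + 1)) (fun r _ => hterm r)
      (Finset.mem_range.2 (by omega))
  let K : ℝ := ∑ k ∈ Finset.range (m + 1), ((k : ℝ) * 2 ^ m + 3 ^ k * h / w k)
  have hKterm : ∀ k : ℕ, 0 ≤ (k : ℝ) * 2 ^ m + 3 ^ k * h / w k := fun k => by
    have := hw k; positivity
  have hK : ∀ k ≤ m, (k : ℝ) * 2 ^ m + 3 ^ k * h / w k ≤ K := fun k hk =>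
    Finset.single_le_sum (f := fun k : ℕ => (k : ℝ) * 2 ^ m + 3 ^ k * h / w k)
      (fun k _ => hKterm k) (Finset.mem_range.2 (by omega))
  refine ⟨K, Finset.sum_nonneg fun k _ => hKterm k, ?_⟩
  intro n hn C hC hBd a B hBB hs
  set k := B.length with hk
  have hkm : k ≤ m := by have := length_le_sum B hBB; omega
  set x := √(n : ℝ) with hxdef
  have hn0 : (1 : ℝ) ≤ n := by exact_mod_cast hn
  have hx1 : 1 ≤ x := by rw [hxdef, Real.one_le_sqrt]; exact hn0
  have hx0 : 0 < x := by linarith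
  have hx2 : x ^ 2 = n := Real.sq_sqrt (by linarith)
  have hxdiv : x / ((n : ℝ) + 1) ≤ 1 / x := by
    rw [div_le_div_iff₀ (by linarith) hx0]
    nlinarith
  have hxdiv1 : x / ((n : ℝ) + 1) ≤ 1 := hxdiv.trans (by rw [div_le_one hx0]; exact hx1)
  have hHle : ∀ r ≤ m, Hf m w n C r ≤ (C * h) * x ^ r := by
    intro r hr
    unfold Hf
    rw [mul_assoc]
    refine mul_le_mul_of_nonneg_left ?_ hC
    have h1 : ((2 : ℝ) ^ (m - r) - 1) * (w (r + 1) * x ^ (r + 1)) / ((n : ℝ) + 1) ≤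
        2 ^ m * w (r + 1) * x ^ r := by
      have h2 : ((2 : ℝ) ^ (m - r) - 1) ≤ 2 ^ m := by
        have := pow_le_pow_right₀ (one_le_two (α := ℝ)) (Nat.sub_le m r)
        linarith
      have h20 : 0 ≤ ((2 : ℝ) ^ (m - r) - 1) := by
        have := one_le_pow₀ (M₀ := ℝ) (a := 2) one_le_two (n := m - r)
        linarith
      have hwr := hw (r + 1)
      calc ((2 : ℝ) ^ (m - r) - 1) * (w (r + 1) * x ^ (r + 1)) / ((n : ℝ) + 1)
          = ((2 : ℝ) ^ (m - r) - 1) * (w (r + 1) * x ^ r) * (x / ((n : ℝ) + 1)) := by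
            rw [pow_succ]; ring
        _ ≤ ((2 : ℝ) ^ (m - r) - 1) * (w (r + 1) * x ^ r) * 1 :=
            mul_le_mul_of_nonneg_left hxdiv1 (by positivity)
        _ ≤ 2 ^ m * (w (r + 1) * x ^ r) := by
            rw [mul_one]; exact mul_le_mul_of_nonneg_right h2 (by positivity)
        _ = _ := by ring
    have h3 := mul_le_mul_of_nonneg_right (hh r hr) (pow_nonneg hx0.le r)
    calc w r * x ^ r + ((2 : ℝ) ^ (m - r) - 1) * (w (r + 1) * x ^ (r + 1)) / ((n : ℝ) + 1)
        ≤ w r * x ^ r + 2 ^ m * w (r + 1) * x ^ r := by linarith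
      _ = (w r + 2 ^ m * w (r + 1)) * x ^ r := by ring
      _ ≤ h * x ^ r := h3
  have hmain := expand hX hC (fun k => (hw k).le) hBd B a [] hBB (by simp) (by simpa using hs)
  have hKf := Kf_le (Hf m w n C) hx1 hx2 (mul_nonneg hC hh0) m hHle k 0 (by omega)
  simp only [List.length_nil] at hmain
  rw [← hk] at hmain
  have hPhi : Phi μ X a B (n + 1) = ∫ ω, X (n + 1) ω ^ a * prodT X B (n + 1) ω * prodT X [] n ω ∂μ := by
    unfold Phi
    simp [prodT]
  rw [hPhi]
  refine hmain.trans (hKf.trans ?_)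
  simp only [Nat.zero_add]
  -- bound the three terms
  have hwk := hw k
  have hwk1 := hw (k + 1)
  have t1 : Hf m w n C k ≤ C * x ^ k * (w k + ((2 : ℝ) ^ (m - k) - 1) * w (k + 1) / x) := by
    unfold Hf
    have h20 : 0 ≤ ((2 : ℝ) ^ (m - k) - 1) := by
      have := one_le_pow₀ (M₀ := ℝ) (a := 2) one_le_two (n := m - k)
      linarith
    have h21 : ((2 : ℝ) ^ (m - k) - 1) * (w (k + 1) * x ^ (k + 1)) / ((n : ℝ) + 1) ≤
        x ^ k * (((2 : ℝ) ^ (m - k) - 1) * w (k + 1) / x) := by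
      calc ((2 : ℝ) ^ (m - k) - 1) * (w (k + 1) * x ^ (k + 1)) / ((n : ℝ) + 1)
          = (x ^ k * (((2 : ℝ) ^ (m - k) - 1) * w (k + 1))) * (x / ((n : ℝ) + 1)) := by
            rw [pow_succ]; ring
        _ ≤ (x ^ k * (((2 : ℝ) ^ (m - k) - 1) * w (k + 1))) * (1 / x) :=
            mul_le_mul_of_nonneg_left hxdiv (by positivity)
        _ = _ := by ring
    calc C * (w k * x ^ k + ((2 : ℝ) ^ (m - k) - 1) * (w (k + 1) * x ^ (k + 1)) / ((n : ℝ) + 1))
        ≤ C * (w k * x ^ k + x ^ k * (((2 : ℝ) ^ (m - k) - 1) * w (k + 1) / x)) :=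
          mul_le_mul_of_nonneg_left (by linarith) hC
      _ = _ := by ring
  have t2 : (k : ℝ) * Hf m w n C (k - 1) ≤
      C * x ^ k * ((k : ℝ) * w (k - 1) / x + (k : ℝ) * 2 ^ m * w k / n) := by
    rcases Nat.eq_zero_or_pos k with h0 | h0
    · rw [h0]; simp
    · obtain ⟨j, hj⟩ : ∃ j, k = j + 1 := ⟨k - 1, by omega⟩
      have hwj := hw j
      have hwj1 := hw (j + 1)
      rw [hj]
      simp only [Nat.add_sub_cancel]
      unfold Hf
      have h20 : ((2 : ℝ) ^ (m - j) - 1) ≤ 2 ^ m := by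
        have := pow_le_pow_right₀ (one_le_two (α := ℝ)) (Nat.sub_le m j)
        linarith
      have h21 : ((2 : ℝ) ^ (m - j) - 1) * (w (j + 1) * x ^ (j + 1)) / ((n : ℝ) + 1) ≤
          x ^ (j + 1) * (2 ^ m * w (j + 1) / n) := by
        have h22 : ((2 : ℝ) ^ (m - j) - 1) * (w (j + 1) * x ^ (j + 1)) ≤
            2 ^ m * (w (j + 1) * x ^ (j + 1)) := mul_le_mul_of_nonneg_right h20 (by positivity)
        calc ((2 : ℝ) ^ (m - j) - 1) * (w (j + 1) * x ^ (j + 1)) / ((n : ℝ) + 1)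
            ≤ 2 ^ m * (w (j + 1) * x ^ (j + 1)) / ((n : ℝ) + 1) :=
              div_le_div_of_nonneg_right h22 (by positivity)
          _ ≤ 2 ^ m * (w (j + 1) * x ^ (j + 1)) / n :=
              div_le_div_of_nonneg_left (by positivity) (by linarith) (by linarith)
          _ = _ := by ring
      have h23 : w j * x ^ j = x ^ (j + 1) * (w j / x) := by
        rw [pow_succ]; field_simp
      have h24 : C * (w j * x ^ j + ((2 : ℝ) ^ (m - j) - 1) * (w (j + 1) * x ^ (j + 1)) / ((n : ℝ) + 1))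
          ≤ C * (x ^ (j + 1) * (w j / x) + x ^ (j + 1) * (2 ^ m * w (j + 1) / n)) := by
        refine mul_le_mul_of_nonneg_left ?_ hC
        rw [h23]; linarith
      have h25 := mul_le_mul_of_nonneg_left h24 (Nat.cast_nonneg (α := ℝ) (j + 1))
      refine h25.trans (le_of_eq ?_)
      ring
  have t3 : (3 : ℝ) ^ k * (C * h * x ^ k / n) = C * x ^ k * ((3 : ℝ) ^ k * h / n) := by ring
  have hsum := add_le_add (add_le_add t1 t2) (le_of_eq t3)
  refine hsum.trans ?_
  have hΛk := hΛ k hkm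
  have hKk := hK k hkm
  have hn00 : (0 : ℝ) < n := by linarith
  have f1 : ((2 : ℝ) ^ (m - k) - 1) * w (k + 1) / x + (k : ℝ) * w (k - 1) / x ≤ Λ * w k / x := by
    rw [← add_div]
    exact div_le_div_of_nonneg_right (by linarith) hx0.le
  have f2 : (k : ℝ) * 2 ^ m * w k / n + (3 : ℝ) ^ k * h / n ≤ K * w k / n := by
    rw [← add_div]
    refine div_le_div_of_nonneg_right ?_ hn00.le
    have := mul_le_mul_of_nonneg_right hKk hwk.le
    refine le_trans (le_of_eq ?_) this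
    field_simp
  have f3 : C * x ^ k * (w k + ((2 : ℝ) ^ (m - k) - 1) * w (k + 1) / x) +
      C * x ^ k * ((k : ℝ) * w (k - 1) / x + (k : ℝ) * 2 ^ m * w k / n) +
      C * x ^ k * ((3 : ℝ) ^ k * h / n) ≤ C * x ^ k * (w k * (1 + Λ / x + K / n)) := by
    rw [← mul_add, ← mul_add]
    refine mul_le_mul_of_nonneg_left ?_ (by positivity)
    have : w k * (1 + Λ / x + K / n) = w k + Λ * w k / x + K * w k / n := by ring
    rw [this]
    linarith
  refine f3.trans ?_
  have f4 : x ^ k ≤ √((n + 1 : ℕ) : ℝ) ^ k := by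
    refine pow_le_pow_left₀ hx0.le ?_ k
    exact Real.sqrt_le_sqrt (by push_cast; linarith)
  have f5 : 0 ≤ 1 + Λ / x + K / n := by
    have : 0 ≤ Λ := by
      by_contra hneg
      push Not at hneg
      have h1 : Λ * w k < 0 := mul_neg_of_neg_of_pos hneg hwk
      have h2 : 0 ≤ (k : ℝ) * w (k - 1) := mul_nonneg (Nat.cast_nonneg _) (hw _).le
      have h3 : 0 ≤ ((2 : ℝ) ^ (m - k) - 1) * w (k + 1) := by
        have := one_le_pow₀ (M₀ := ℝ) (a := 2) one_le_two (n := m - k)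
        exact mul_nonneg (by linarith) hwk1.le
      linarith
    have hK0 : 0 ≤ K := Finset.sum_nonneg fun k _ => hKterm k
    positivity
  calc C * x ^ k * (w k * (1 + Λ / x + K / n)) = C * (1 + Λ / x + K / n) * w k * x ^ k := by ring
    _ ≤ C * (1 + Λ / x + K / n) * w k * √((n + 1 : ℕ) : ℝ) ^ k :=
        mul_le_mul_of_nonneg_left f4 (by positivity)
    _ = _ := by ring

end Pool.Agent.Q211.Ulam
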